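import Pool.Agent.TH316.AT.Ex

/-!
# The fixed point for the Parisi equation (piece EX-FP)
-/

set_option autoImplicit false

open MeasureTheory ProbabilityTheory Set

namespace Pool.TH808.AT

open Pool.TH198.AT Pool.TH316.AT

lemma meas_zt {ζ : ℝ → ℝ} (hζ : IsCdf ζ) : Measurable (zt ζ) := by
  have hm : Monotone (fun s : ℝ => ζ (max 0 (min s 1))) := by
    intro a b hab
    refine hζ.1 ⟨le_max_left _ _, max_le zero_le_one (min_le_right _ _)⟩
      ⟨le_max_left _ _, max_le zero_le_one (min_le_right _ _)⟩ ?_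
    exact max_le_max le_rfl (min_le_min hab le_rfl)
  have h : zt ζ = fun s => if s ≤ 1 then ζ (max 0 (min s 1)) else 0 := by
    funext s
    unfold zt
    split_ifs with h
    · rw [min_eq_left h]
    · rfl
  rw [h]
  exact Measurable.ite measurableSet_Iic hm.measurable measurable_const

lemma zt_bd {ζ : ℝ → ℝ} (hζ : IsCdf ζ) (s : ℝ) : 0 ≤ zt ζ s ∧ zt ζ s ≤ 1 := by
  unfold zt
  split_ifs with h
  · exact hζ.2.1 _ ⟨le_max_left _ _, max_le zero_le_one h⟩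
  · exact ⟨le_rfl, zero_le_one⟩

lemma zt_gt {ζ : ℝ → ℝ} {s : ℝ} (h : 1 < s) : zt ζ s = 0 := by
  unfold zt
  rw [if_neg (not_le.2 h)]

lemma E1_le {F : ℝ → ℝ} {N : ℝ} (h : ∀ y, |F y| ≤ N) : |E1 F| ≤ N := by
  unfold E1
  have := norm_integral_le_of_norm_le_const (μ := gaussianReal 0 1) (f := F) (C := N)
    (Filter.Eventually.of_forall fun y => by rw [Real.norm_eq_abs]; exact h y)
  simpa using this

lemma int_sq : Integrable (fun y : ℝ => y ^ 2) (gaussianReal 0 1) := by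
  have h : MemLp (id : ℝ → ℝ) 2 (gaussianReal 0 1) := memLp_id_gaussianReal 2
  exact h.integrable_sq

lemma sq_eq : ∫ y, y ^ 2 ∂(gaussianReal 0 1) = 1 := by
  have h : MemLp (id : ℝ → ℝ) 2 (gaussianReal 0 1) := memLp_id_gaussianReal 2
  have h1 := variance_eq_sub h
  rw [variance_id_gaussianReal] at h1
  simp only [Pi.pow_apply, id_eq, integral_id_gaussianReal] at h1
  norm_num at h1
  linarith

lemma E1_y_le {F : ℝ → ℝ} {N : ℝ} (h : ∀ y, |F y| ≤ N) : |E1 (fun y => y * F y)| ≤ N := by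
  unfold E1
  have hN : 0 ≤ N := le_trans (abs_nonneg _) (h 0)
  have hi : Integrable (fun y : ℝ => N * ((1 + y ^ 2) / 2)) (gaussianReal 0 1) :=
    (((integrable_const 1).add int_sq).div_const 2).const_mul N
  have h1 := norm_integral_le_of_norm_le (μ := gaussianReal 0 1) (f := fun y => y * F y) hi
    (Filter.Eventually.of_forall fun y => by
      rw [Real.norm_eq_abs, abs_mul, mul_comm]
      have h2 : |y| ≤ (1 + y ^ 2) / 2 := by
        nlinarith [sq_nonneg (|y| - 1), sq_abs y]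
      exact mul_le_mul (h y) h2 (abs_nonneg _) hN)
  have h3 : ∫ y, N * ((1 + y ^ 2) / 2) ∂(gaussianReal 0 1) = N := by
    rw [integral_const_mul, integral_div, integral_add (integrable_const 1) int_sq, sq_eq]
    simp
  rw [h3] at h1
  simpa using h1

/-- the kernel integral -/
noncomputable def K (l : ℝ) : ℝ := ∫ u in (0 : ℝ)..1, Real.exp (-l * u ^ 2)

lemma K_nonneg (l : ℝ) : 0 ≤ K l :=
  intervalIntegral.integral_nonneg zero_le_one fun _ _ => (Real.exp_pos _).le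

lemma K_le {l : ℝ} (hl : 0 < l) : K l ≤ √(Real.pi / l) / 2 := by
  unfold K
  rw [intervalIntegral.integral_of_le zero_le_one, ← integral_gaussian_Ioi l]
  refine setIntegral_mono_set ?_ ?_ ?_
  · exact (integrable_exp_neg_mul_sq hl).integrableOn
  · exact Filter.Eventually.of_forall fun _ => (Real.exp_pos _).le
  · exact Filter.Eventually.of_forall fun x hx => hx.1

lemma exists_K {ε : ℝ} (hε : 0 < ε) : ∃ l : ℝ, 0 < l ∧ K l ≤ ε := by
  refine ⟨Real.pi / ε ^ 2, by positivity, (K_le (by positivity)).trans ?_⟩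
  have h : Real.pi / (Real.pi / ε ^ 2) = ε ^ 2 := by
    field_simp
  rw [h, Real.sqrt_sq hε.le]
  linarith

section bounds

variable {β : ℝ} {ζ : ℝ → ℝ} {g : ℝ → ℝ → ℝ} {C : ℝ}

lemma meas_u {h : ℝ → ℝ} (hh : Continuous h) (hg : BC C g) (t x c : ℝ) :
    StronglyMeasurable (fun u : ℝ => E1 (fun y => h y * g (t + u ^ 2) (x + c * u * y))) := by
  unfold E1
  have hc : Continuous (fun p : ℝ × ℝ => h p.2 * g (t + p.1 ^ 2) (x + c * p.1 * p.2)) := by
    have h1 : Continuous (fun p : ℝ × ℝ => ((t + p.1 ^ 2, x + c * p.1 * p.2) : ℝ × ℝ)) := by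
      fun_prop
    exact (hh.comp continuous_snd).mul (hg.1.comp h1)
  exact hc.stronglyMeasurable.integral_prod_right'

/-- integrand of `SP` -/
noncomputable def fP (β : ℝ) (ζ : ℝ → ℝ) (g : ℝ → ℝ → ℝ) (t x u : ℝ) : ℝ :=
  2 * u * (zt ζ (t + u ^ 2) * E1 (fun y => g (t + u ^ 2) (x + √(2 * β ^ 2) * u * y)))

/-- integrand of `SD` -/
noncomputable def fD (β : ℝ) (ζ : ℝ → ℝ) (g : ℝ → ℝ → ℝ) (t x u : ℝ) : ℝ :=
  2 / √(2 * β ^ 2) *
    (zt ζ (t + u ^ 2) * E1 (fun y => y * g (t + u ^ 2) (x + √(2 * β ^ 2) * u * y)))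

lemma meas_fP (hζ : IsCdf ζ) (hg : BC C g) (t x : ℝ) : Measurable (fP β ζ g t x) := by
  unfold fP
  have h1 := (meas_u (h := fun _ => (1 : ℝ)) continuous_const hg t x (√(2 * β ^ 2))).measurable
  simp only [one_mul] at h1
  have h2 : Measurable (fun u : ℝ => zt ζ (t + u ^ 2)) :=
    (meas_zt hζ).comp (by fun_prop)
  exact (measurable_const.mul measurable_id).mul (h2.mul h1)

lemma meas_fD (hζ : IsCdf ζ) (hg : BC C g) (t x : ℝ) : Measurable (fD β ζ g t x) := by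
  unfold fD
  have h1 := (meas_u (h := fun y : ℝ => y) continuous_id hg t x (√(2 * β ^ 2))).measurable
  have h2 : Measurable (fun u : ℝ => zt ζ (t + u ^ 2)) :=
    (meas_zt hζ).comp (by fun_prop)
  exact measurable_const.mul (h2.mul h1)

/-- pointwise bound of the inner part -/
lemma inner_bd (hζ : IsCdf ζ) {N l : ℝ} (hN : 0 ≤ N) {s E : ℝ}
    (hE : s ≤ 1 → |E| ≤ N * Real.exp (l * (1 - s))) :
    |zt ζ s * E| ≤ N * Real.exp (l * (1 - s)) := by
  by_cases h : s ≤ 1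
  · rw [abs_mul, abs_of_nonneg (zt_bd hζ s).1]
    calc zt ζ s * |E| ≤ 1 * |E| := mul_le_mul_of_nonneg_right (zt_bd hζ s).2 (abs_nonneg _)
      _ = |E| := one_mul _
      _ ≤ _ := hE h
  · rw [zt_gt (not_le.1 h), zero_mul, abs_zero]
    positivity

lemma fP_bd (hζ : IsCdf ζ) {N l : ℝ} (hN : 0 ≤ N)
    (h : ∀ s ∈ Icc (0 : ℝ) 1, ∀ x, |g s x| ≤ N * Real.exp (l * (1 - s)))
    {t : ℝ} (ht : t ∈ Icc (0 : ℝ) 1) (x : ℝ) {u : ℝ} (hu : u ∈ Icc (0 : ℝ) 1) :
    |fP β ζ g t x u| ≤ 2 * (N * Real.exp (l * (1 - t))) * Real.exp (-l * u ^ 2) := by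
  unfold fP
  have h1 : |zt ζ (t + u ^ 2) * E1 (fun y => g (t + u ^ 2) (x + √(2 * β ^ 2) * u * y))| ≤
      N * Real.exp (l * (1 - (t + u ^ 2))) := by
    refine inner_bd hζ hN fun hs => ?_
    exact E1_le fun y => h _ ⟨by nlinarith [ht.1], hs⟩ _
  have h2 : N * Real.exp (l * (1 - (t + u ^ 2))) =
      (N * Real.exp (l * (1 - t))) * Real.exp (-l * u ^ 2) := by
    rw [mul_assoc, ← Real.exp_add]
    congr 2
    ring
  rw [abs_mul, abs_of_nonneg (by linarith [hu.1] : (0 : ℝ) ≤ 2 * u), mul_assoc 2 _ (Real.exp _)]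
  rw [h2] at h1
  calc 2 * u * |zt ζ (t + u ^ 2) * E1 (fun y => g (t + u ^ 2) (x + √(2 * β ^ 2) * u * y))|
      ≤ 2 * u * ((N * Real.exp (l * (1 - t))) * Real.exp (-l * u ^ 2)) :=
        mul_le_mul_of_nonneg_left h1 (by linarith [hu.1])
    _ ≤ 2 * 1 * ((N * Real.exp (l * (1 - t))) * Real.exp (-l * u ^ 2)) :=
        mul_le_mul_of_nonneg_right (by linarith [hu.2]) (by positivity)
    _ = _ := by ring

lemma fD_bd (hζ : IsCdf ζ) {N l : ℝ} (hN : 0 ≤ N)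
    (h : ∀ s ∈ Icc (0 : ℝ) 1, ∀ x, |g s x| ≤ N * Real.exp (l * (1 - s)))
    {t : ℝ} (ht : t ∈ Icc (0 : ℝ) 1) (x : ℝ) (u : ℝ) :
    |fD β ζ g t x u| ≤
      2 / √(2 * β ^ 2) * (N * Real.exp (l * (1 - t))) * Real.exp (-l * u ^ 2) := by
  unfold fD
  have h1 : |zt ζ (t + u ^ 2) * E1 (fun y => y * g (t + u ^ 2) (x + √(2 * β ^ 2) * u * y))| ≤
      N * Real.exp (l * (1 - (t + u ^ 2))) := by
    refine inner_bd hζ hN fun hs => ?_
    exact E1_y_le fun y => h _ ⟨by nlinarith [ht.1], hs⟩ _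
  have h2 : N * Real.exp (l * (1 - (t + u ^ 2))) =
      (N * Real.exp (l * (1 - t))) * Real.exp (-l * u ^ 2) := by
    rw [mul_assoc, ← Real.exp_add]
    congr 2
    ring
  rw [h2] at h1
  rw [abs_mul, abs_of_nonneg (by positivity : (0 : ℝ) ≤ 2 / √(2 * β ^ 2)), mul_assoc]
  exact mul_le_mul_of_nonneg_left h1 (by positivity)

lemma exp_ii (l : ℝ) : IntervalIntegrable (fun u : ℝ => Real.exp (-l * u ^ 2)) volume 0 1 :=
  Continuous.intervalIntegrable (by fun_prop) _ _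

lemma ii_of {f : ℝ → ℝ} (hf : Measurable f) {c l : ℝ}
    (h : ∀ u ∈ Icc (0 : ℝ) 1, |f u| ≤ c * Real.exp (-l * u ^ 2)) :
    IntervalIntegrable f volume 0 1 := by
  rw [intervalIntegrable_iff_integrableOn_Ioc_of_le zero_le_one]
  have h1 : IntegrableOn (fun u : ℝ => c * Real.exp (-l * u ^ 2)) (Ioc 0 1) := by
    have := (exp_ii l).const_mul c
    rwa [intervalIntegrable_iff_integrableOn_Ioc_of_le zero_le_one] at this
  refine Integrable.mono' h1 hf.aestronglyMeasurable ?_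
  filter_upwards [ae_restrict_mem measurableSet_Ioc] with u hu
  exact h u ⟨hu.1.le, hu.2⟩

lemma int_bd {f : ℝ → ℝ} {c l : ℝ}
    (h : ∀ u ∈ Icc (0 : ℝ) 1, |f u| ≤ c * Real.exp (-l * u ^ 2)) :
    |∫ u in (0 : ℝ)..1, f u| ≤ c * K l := by
  unfold K
  rw [← intervalIntegral.integral_const_mul]
  have := intervalIntegral.norm_integral_le_of_norm_le (μ := volume) (a := (0 : ℝ)) (b := 1)
    (f := f) (g := fun u => c * Real.exp (-l * u ^ 2)) zero_le_one
    (Filter.Eventually.of_forall fun u hu => h u ⟨hu.1.le, hu.2⟩) ((exp_ii l).const_mul c)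
  simpa using this

/-- the common constant -/
noncomputable def BB (β : ℝ) : ℝ := 2 * β ^ 2 + β ^ 2 * (2 / √(2 * β ^ 2))

lemma SP_bd (hζ : IsCdf ζ) {N l : ℝ} (hN : 0 ≤ N)
    (h : ∀ s ∈ Icc (0 : ℝ) 1, ∀ x, |g s x| ≤ N * Real.exp (l * (1 - s)))
    {t : ℝ} (ht : t ∈ Icc (0 : ℝ) 1) (x : ℝ) :
    |SP β ζ g t x| ≤ BB β * K l * (N * Real.exp (l * (1 - t))) := by
  have h1 : |∫ u in (0 : ℝ)..1, fP β ζ g t x u| ≤ 2 * (N * Real.exp (l * (1 - t))) * K l :=
    int_bd fun u hu => fP_bd hζ hN h ht x hu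
  have h0 : SP β ζ g t x = β ^ 2 * ∫ u in (0 : ℝ)..1, fP β ζ g t x u := rfl
  rw [h0, abs_mul, abs_of_nonneg (sq_nonneg β)]
  have hK := K_nonneg l
  have h3 : 0 ≤ β ^ 2 * (2 / √(2 * β ^ 2)) * K l * (N * Real.exp (l * (1 - t))) := by positivity
  have h4 := mul_le_mul_of_nonneg_left h1 (sq_nonneg β)
  unfold BB
  nlinarith [h3, h4]

lemma SD_bd (hζ : IsCdf ζ) {N l : ℝ} (hN : 0 ≤ N)
    (h : ∀ s ∈ Icc (0 : ℝ) 1, ∀ x, |g s x| ≤ N * Real.exp (l * (1 - s)))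
    {t : ℝ} (ht : t ∈ Icc (0 : ℝ) 1) (x : ℝ) :
    |SD β ζ g t x| ≤ BB β * K l * (N * Real.exp (l * (1 - t))) := by
  have h1 : |∫ u in (0 : ℝ)..1, fD β ζ g t x u| ≤
      2 / √(2 * β ^ 2) * (N * Real.exp (l * (1 - t))) * K l :=
    int_bd fun u _ => fD_bd hζ hN h ht x u
  have h0 : SD β ζ g t x = β ^ 2 * ∫ u in (0 : ℝ)..1, fD β ζ g t x u := rfl
  rw [h0, abs_mul, abs_of_nonneg (sq_nonneg β)]
  have hK := K_nonneg l
  have h3 : 0 ≤ 2 * β ^ 2 * K l * (N * Real.exp (l * (1 - t))) := by positivity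
  have h4 := mul_le_mul_of_nonneg_left h1 (sq_nonneg β)
  unfold BB
  nlinarith [h3, h4]

lemma g_int (hg : BC C g) (s x c : ℝ) :
    Integrable (fun y => g s (x + c * y)) (gaussianReal 0 1) := by
  refine Integrable.of_bound ?_ C (Filter.Eventually.of_forall fun y => ?_)
  · have h1 : Continuous (fun y : ℝ => ((s, x + c * y) : ℝ × ℝ)) := by fun_prop
    exact (hg.1.comp h1).aestronglyMeasurable
  · rw [Real.norm_eq_abs]
    exact hg.2 _ _

lemma yg_int (hg : BC C g) (s x c : ℝ) :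
    Integrable (fun y => y * g s (x + c * y)) (gaussianReal 0 1) := by
  have hC : 0 ≤ C := le_trans (abs_nonneg _) (hg.2 0 0)
  have hi : Integrable (fun y : ℝ => C * ((1 + y ^ 2) / 2)) (gaussianReal 0 1) :=
    (((integrable_const 1).add int_sq).div_const 2).const_mul C
  refine Integrable.mono' hi ?_ (Filter.Eventually.of_forall fun y => ?_)
  · have h1 : Continuous (fun y : ℝ => ((s, x + c * y) : ℝ × ℝ)) := by fun_prop
    exact (continuous_id.mul (hg.1.comp h1)).aestronglyMeasurable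
  · rw [Real.norm_eq_abs, abs_mul, mul_comm]
    have h2 : |y| ≤ (1 + y ^ 2) / 2 := by
      nlinarith [sq_nonneg (|y| - 1), sq_abs y]
    exact mul_le_mul (hg.2 _ _) h2 (abs_nonneg _) hC

lemma fP_sub {g' : ℝ → ℝ → ℝ} {C' : ℝ} (hg : BC C g) (hg' : BC C' g') (t x u : ℝ) :
    fP β ζ (fun t x => g t x - g' t x) t x u = fP β ζ g t x u - fP β ζ g' t x u := by
  have h : E1 (fun y => g (t + u ^ 2) (x + √(2 * β ^ 2) * u * y) -
      g' (t + u ^ 2) (x + √(2 * β ^ 2) * u * y)) =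
      E1 (fun y => g (t + u ^ 2) (x + √(2 * β ^ 2) * u * y)) -
      E1 (fun y => g' (t + u ^ 2) (x + √(2 * β ^ 2) * u * y)) := by
    unfold E1
    exact integral_sub (g_int hg _ _ _) (g_int hg' _ _ _)
  unfold fP
  rw [h]
  ring

lemma fD_sub {g' : ℝ → ℝ → ℝ} {C' : ℝ} (hg : BC C g) (hg' : BC C' g') (t x u : ℝ) :
    fD β ζ (fun t x => g t x - g' t x) t x u = fD β ζ g t x u - fD β ζ g' t x u := by
  have h : E1 (fun y => y * (g (t + u ^ 2) (x + √(2 * β ^ 2) * u * y) -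
      g' (t + u ^ 2) (x + √(2 * β ^ 2) * u * y))) =
      E1 (fun y => y * g (t + u ^ 2) (x + √(2 * β ^ 2) * u * y)) -
      E1 (fun y => y * g' (t + u ^ 2) (x + √(2 * β ^ 2) * u * y)) := by
    unfold E1
    rw [← integral_sub (yg_int hg _ _ _) (yg_int hg' _ _ _)]
    congr 1
    funext y
    ring
  unfold fD
  rw [h]
  ring

lemma bd0 (hg : BC C g) : ∀ s ∈ Icc (0 : ℝ) 1, ∀ x, |g s x| ≤ C * Real.exp (0 * (1 - s)) := by
  intro s _ x
  rw [zero_mul, Real.exp_zero, mul_one]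
  exact hg.2 _ _

lemma SP_sub (hζ : IsCdf ζ) {g' : ℝ → ℝ → ℝ} {C' : ℝ} (hg : BC C g) (hg' : BC C' g')
    {t : ℝ} (ht : t ∈ Icc (0 : ℝ) 1) (x : ℝ) :
    SP β ζ g t x - SP β ζ g' t x = SP β ζ (fun t x => g t x - g' t x) t x := by
  have hC : 0 ≤ C := le_trans (abs_nonneg _) (hg.2 0 0)
  have hC' : 0 ≤ C' := le_trans (abs_nonneg _) (hg'.2 0 0)
  have h0 : ∀ g, SP β ζ g t x = β ^ 2 * ∫ u in (0 : ℝ)..1, fP β ζ g t x u := fun _ => rfl
  have h1 : (fun u => fP β ζ (fun t x => g t x - g' t x) t x u) =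
      fun u => fP β ζ g t x u - fP β ζ g' t x u := funext fun u => fP_sub hg hg' t x u
  rw [h0, h0, h0, h1, intervalIntegral.integral_sub, mul_sub]
  · exact ii_of (meas_fP hζ hg t x) fun u hu => fP_bd hζ hC (bd0 hg) ht x hu
  · exact ii_of (meas_fP hζ hg' t x) fun u hu => fP_bd hζ hC' (bd0 hg') ht x hu

lemma SD_sub (hζ : IsCdf ζ) {g' : ℝ → ℝ → ℝ} {C' : ℝ} (hg : BC C g) (hg' : BC C' g')
    {t : ℝ} (ht : t ∈ Icc (0 : ℝ) 1) (x : ℝ) :
    SD β ζ g t x - SD β ζ g' t x = SD β ζ (fun t x => g t x - g' t x) t x := by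
  have hC : 0 ≤ C := le_trans (abs_nonneg _) (hg.2 0 0)
  have hC' : 0 ≤ C' := le_trans (abs_nonneg _) (hg'.2 0 0)
  have h0 : ∀ g, SD β ζ g t x = β ^ 2 * ∫ u in (0 : ℝ)..1, fD β ζ g t x u := fun _ => rfl
  have h1 : (fun u => fD β ζ (fun t x => g t x - g' t x) t x u) =
      fun u => fD β ζ g t x u - fD β ζ g' t x u := funext fun u => fD_sub hg hg' t x u
  rw [h0, h0, h0, h1, intervalIntegral.integral_sub, mul_sub]
  · exact ii_of (meas_fD hζ hg t x) fun u _ => fD_bd hζ hC (bd0 hg) ht x u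
  · exact ii_of (meas_fD hζ hg' t x) fun u _ => fD_bd hζ hC' (bd0 hg') ht x u

end bounds

/-! ### the cut functions -/

lemma cl_cont (M : ℝ) : Continuous (cl M) := by
  unfold cl
  fun_prop

lemma ck_cont : Continuous ck := by
  unfold ck
  fun_prop

lemma ck_mem (t : ℝ) : ck t ∈ Icc (0 : ℝ) 1 :=
  ⟨le_max_left _ _, max_le zero_le_one (min_le_right _ _)⟩

lemma ck_eq {t : ℝ} (ht : t ∈ Icc (0 : ℝ) 1) : ck t = t := by
  unfold ck
  rw [min_eq_left ht.2, max_eq_right ht.1]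

lemma cl_le {M : ℝ} (hM : 0 ≤ M) (u : ℝ) : |cl M u| ≤ M := by
  unfold cl
  rw [abs_le]
  exact ⟨le_max_left _ _, max_le (by linarith) (min_le_right _ _)⟩

lemma cl_abs_le {M : ℝ} (hM : 0 ≤ M) (u : ℝ) : |cl M u| ≤ |u| := by
  unfold cl
  rw [abs_le]
  constructor
  · rcases le_total u M with h | h
    · rw [min_eq_left h]
      exact (neg_abs_le u).trans (le_max_right _ _)
    · rw [min_eq_right h]
      have := abs_nonneg u
      exact le_trans (by linarith) (le_max_right _ _)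
  · exact max_le (by have := abs_nonneg u; linarith) ((min_le_left _ _).trans (le_abs_self u))

lemma cl_eq {M u : ℝ} (h : |u| ≤ M) : cl M u = u := by
  unfold cl
  rw [abs_le] at h
  rw [min_eq_left h.2, max_eq_right h.1]

lemma cl_lip (M a b : ℝ) : |cl M a - cl M b| ≤ |a - b| := by
  unfold cl
  have h1 := abs_max_sub_max_le_abs (min a M) (min b M) (-M)
  have h2 := abs_min_sub_min_le_max a M b M
  rw [sub_self, abs_zero, max_eq_left (abs_nonneg _)] at h2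
  rw [max_comm (-M) _, max_comm (-M) _]
  exact h1.trans h2

lemma prod_lip {M : ℝ} (hM : 0 ≤ M) (a a' b b' : ℝ) :
    |2 * cl 1 a * cl M b - 2 * cl 1 a' * cl M b'| ≤ 2 * |b - b'| + 2 * M * |a - a'| := by
  have h1 : 2 * cl 1 a * cl M b - 2 * cl 1 a' * cl M b' =
      2 * (cl 1 a * (cl M b - cl M b')) + 2 * ((cl 1 a - cl 1 a') * cl M b') := by ring
  rw [h1]
  refine (abs_add_le _ _).trans ?_
  rw [abs_mul, abs_mul 2 ((cl 1 a - cl 1 a') * _), abs_mul, abs_mul (cl 1 a - cl 1 a'), abs_two]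
  have h2 : |cl 1 a| * |cl M b - cl M b'| ≤ 1 * |b - b'| :=
    mul_le_mul (cl_le zero_le_one a) (cl_lip M b b') (abs_nonneg _) zero_le_one
  have h3 : |cl 1 a - cl 1 a'| * |cl M b'| ≤ |a - a'| * M :=
    mul_le_mul (cl_lip 1 a a') (cl_le hM b') (abs_nonneg _) (abs_nonneg _)
  nlinarith

/-! ### the map -/

open BoundedContinuousFunction

section map

variable {β : ℝ} {ζ : ℝ → ℝ}

/-- the weighted function -/
noncomputable def gg (l : ℝ) (h : (ℝ × ℝ) →ᵇ ℝ) (t x : ℝ) : ℝ :=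
  Real.exp (l * (1 - ck t)) * h (t, x)

lemma wt_le {l : ℝ} (hl : 0 ≤ l) (t : ℝ) : Real.exp (l * (1 - ck t)) ≤ Real.exp l := by
  apply Real.exp_le_exp.2
  have := (ck_mem t).1
  nlinarith

lemma gg_BC {l : ℝ} (hl : 0 ≤ l) (h : (ℝ × ℝ) →ᵇ ℝ) : BC (Real.exp l * ‖h‖) (gg l h) := by
  constructor
  · unfold gg
    have h1 : Continuous (fun p : ℝ × ℝ => ck p.1) := ck_cont.comp continuous_fst
    exact (Real.continuous_exp.comp (continuous_const.mul (continuous_const.sub h1))).mul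
      (h.continuous.comp continuous_id)
  · intro t x
    unfold gg
    rw [abs_mul, abs_of_pos (Real.exp_pos _)]
    exact mul_le_mul (wt_le hl t) (h.norm_coe_le_norm _) (abs_nonneg _) (Real.exp_pos _).le

/-- the first factor, cut -/
noncomputable def Psi0 (β : ℝ) (ζ : ℝ → ℝ) (M l : ℝ) (h : (ℝ × ℝ) →ᵇ ℝ) (p : ℝ × ℝ) : ℝ :=
  Real.exp (-(l * (1 - ck p.1))) *
    (2 * cl 1 (WW β ζ (gg l h) (ck p.1) p.2) * cl M (ZZ β ζ (gg l h) (ck p.1) p.2))

lemma WW_cont (hβ : 0 < β) (hζ : IsCdf ζ) (hC : St_CT) (hP : St_PT) {C : ℝ} {g : ℝ → ℝ → ℝ}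
    (hg : BC C g) : Continuous (fun p : ℝ × ℝ => WW β ζ g (ck p.1) p.2) :=
  (hP β hβ).1.1.add (hC β C ζ g hβ hζ hg).1.1

lemma ZZ_cont (hβ : 0 < β) (hζ : IsCdf ζ) (hC : St_CT) (hP : St_PT) {C : ℝ} {g : ℝ → ℝ → ℝ}
    (hg : BC C g) : Continuous (fun p : ℝ × ℝ => ZZ β ζ g (ck p.1) p.2) :=
  (hP β hβ).2.1.1.add (hC β C ζ g hβ hζ hg).2.1

lemma Psi0_cont (hβ : 0 < β) (hζ : IsCdf ζ) (hC : St_CT) (hP : St_PT) {l : ℝ} (hl : 0 ≤ l)
    (M : ℝ) (h : (ℝ × ℝ) →ᵇ ℝ) : Continuous (Psi0 β ζ M l h) := by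
  unfold Psi0
  have hg := gg_BC hl h
  have h1 : Continuous (fun p : ℝ × ℝ => ck p.1) := ck_cont.comp continuous_fst
  have h2 := (cl_cont 1).comp (WW_cont hβ hζ hC hP hg)
  have h3 := (cl_cont M).comp (ZZ_cont hβ hζ hC hP hg)
  exact (Real.continuous_exp.comp (continuous_const.mul (continuous_const.sub h1)).neg).mul
    ((continuous_const.mul h2).mul h3)

lemma Psi0_le {l : ℝ} (hl : 0 ≤ l) {M : ℝ} (hM : 0 ≤ M) (h : (ℝ × ℝ) →ᵇ ℝ) (p : ℝ × ℝ) :
    ‖Psi0 β ζ M l h p‖ ≤ 2 * M := by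
  unfold Psi0
  rw [Real.norm_eq_abs, abs_mul, abs_of_pos (Real.exp_pos _), abs_mul, abs_mul, abs_two]
  have h1 : Real.exp (-(l * (1 - ck p.1))) ≤ 1 := by
    rw [Real.exp_le_one_iff]
    have := (ck_mem p.1).2
    nlinarith
  have h2 := cl_le zero_le_one (WW β ζ (gg l h) (ck p.1) p.2)
  have h3 := cl_le hM (ZZ β ζ (gg l h) (ck p.1) p.2)
  have h4 : 2 * |cl 1 (WW β ζ (gg l h) (ck p.1) p.2)| * |cl M (ZZ β ζ (gg l h) (ck p.1) p.2)| ≤
      2 * 1 * M :=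
    mul_le_mul (mul_le_mul_of_nonneg_left h2 zero_le_two) h3 (abs_nonneg _) (by norm_num)
  calc _ ≤ 1 * (2 * 1 * M) := mul_le_mul h1 h4 (by positivity) zero_le_one
    _ = 2 * M := by ring

/-- the map on bounded continuous functions -/
noncomputable def Psi (hβ : 0 < β) (hζ : IsCdf ζ) (hC : St_CT) (hP : St_PT) {l : ℝ} (hl : 0 ≤ l)
    {M : ℝ} (hM : 0 ≤ M) (h : (ℝ × ℝ) →ᵇ ℝ) : (ℝ × ℝ) →ᵇ ℝ :=
  BoundedContinuousFunction.ofNormedAddCommGroup (Psi0 β ζ M l h)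
    (Psi0_cont hβ hζ hC hP hl M h) (2 * M) (Psi0_le hl hM h)

lemma Psi_lip (hβ : 0 < β) (hζ : IsCdf ζ) (hC : St_CT) (hP : St_PT) {l : ℝ} (hl : 0 ≤ l)
    {M : ℝ} (hM : 0 ≤ M) (h h' : (ℝ × ℝ) →ᵇ ℝ) :
    dist (Psi hβ hζ hC hP hl hM h) (Psi hβ hζ hC hP hl hM h') ≤
      (2 + 2 * M) * (BB β * K l) * dist h h' := by
  have hB : 0 ≤ BB β := by unfold BB; positivity
  have hK := K_nonneg l
  have hd : 0 ≤ dist h h' := dist_nonneg
  refine (BoundedContinuousFunction.dist_le (by positivity)).2 fun p => ?_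
  obtain ⟨t, x⟩ := p
  have hg := gg_BC hl h
  have hg' := gg_BC hl h'
  have hN : ∀ s ∈ Icc (0 : ℝ) 1, ∀ x, |gg l h s x - gg l h' s x| ≤
      dist h h' * Real.exp (l * (1 - s)) := by
    intro s hs x
    unfold gg
    rw [ck_eq hs, ← mul_sub, abs_mul, abs_of_pos (Real.exp_pos _), mul_comm]
    exact mul_le_mul_of_nonneg_right
      (by rw [← Real.dist_eq]; exact BoundedContinuousFunction.dist_coe_le_dist _)
      (Real.exp_pos _).le
  have hW : |WW β ζ (gg l h) (ck t) x - WW β ζ (gg l h') (ck t) x| ≤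
      BB β * K l * (dist h h' * Real.exp (l * (1 - ck t))) := by
    have e : WW β ζ (gg l h) (ck t) x - WW β ζ (gg l h') (ck t) x =
        SP β ζ (gg l h) (ck t) x - SP β ζ (gg l h') (ck t) x := by
      unfold WW
      ring
    rw [e, SP_sub hζ hg hg' (ck_mem t) x]
    exact SP_bd hζ hd hN (ck_mem t) x
  have hZ : |ZZ β ζ (gg l h) (ck t) x - ZZ β ζ (gg l h') (ck t) x| ≤
      BB β * K l * (dist h h' * Real.exp (l * (1 - ck t))) := by
    have e : ZZ β ζ (gg l h) (ck t) x - ZZ β ζ (gg l h') (ck t) x =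
        SD β ζ (gg l h) (ck t) x - SD β ζ (gg l h') (ck t) x := by
      unfold ZZ
      ring
    rw [e, SD_sub hζ hg hg' (ck_mem t) x]
    exact SD_bd hζ hd hN (ck_mem t) x
  show dist (Psi0 β ζ M l h (t, x)) (Psi0 β ζ M l h' (t, x)) ≤ _
  unfold Psi0
  simp only
  rw [Real.dist_eq, ← mul_sub, abs_mul, abs_of_pos (Real.exp_pos _)]
  have h1 := prod_lip hM (WW β ζ (gg l h) (ck t) x) (WW β ζ (gg l h') (ck t) x)
    (ZZ β ζ (gg l h) (ck t) x) (ZZ β ζ (gg l h') (ck t) x)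
  have h2 : 2 * |ZZ β ζ (gg l h) (ck t) x - ZZ β ζ (gg l h') (ck t) x| +
      2 * M * |WW β ζ (gg l h) (ck t) x - WW β ζ (gg l h') (ck t) x| ≤
      (2 + 2 * M) * (BB β * K l * (dist h h' * Real.exp (l * (1 - ck t)))) := by
    have h3 := mul_le_mul_of_nonneg_left hZ zero_le_two
    have h4 := mul_le_mul_of_nonneg_left hW (by positivity : (0 : ℝ) ≤ 2 * M)
    nlinarith
  calc _ ≤ Real.exp (-(l * (1 - ck t))) *
        ((2 + 2 * M) * (BB β * K l * (dist h h' * Real.exp (l * (1 - ck t))))) :=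
        mul_le_mul_of_nonneg_left (h1.trans h2) (Real.exp_pos _).le
    _ = (2 + 2 * M) * (BB β * K l) * dist h h' *
        (Real.exp (-(l * (1 - ck t))) * Real.exp (l * (1 - ck t))) := by ring
    _ = _ := by rw [← Real.exp_add, neg_add_cancel, Real.exp_zero, mul_one]

end map

/-- EX-FP: the fixed point -/
theorem t_FP (hC : St_CT) (hP : St_PT) : St_FP := by
  intro β ζ hβ hζ
  have hB : 0 ≤ BB β := by unfold BB; positivity
  -- the a priori weight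
  obtain ⟨l0, hl0, hK0⟩ := exists_K (ε := 1 / (4 * (BB β + 1))) (by positivity)
  have hb0 : BB β * K l0 * 2 ≤ 1 / 2 := by
    have h1 := mul_le_mul_of_nonneg_left hK0 hB
    have h2 : BB β * (1 / (4 * (BB β + 1))) ≤ 1 / 4 := by
      rw [mul_one_div, div_le_iff₀ (by positivity)]
      linarith
    linarith
  set M : ℝ := 2 * Real.exp l0 with hMdef
  have hM : 0 ≤ M := by positivity
  obtain ⟨l, hl, hKl⟩ := exists_K (ε := 1 / (2 * ((2 + 2 * M) * (BB β + 1)))) (by positivity)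
  have hbl : (2 + 2 * M) * (BB β * K l) ≤ 1 / 2 := by
    have h1 := mul_le_mul_of_nonneg_left hKl (by positivity : 0 ≤ (2 + 2 * M) * BB β)
    have h2 : (2 + 2 * M) * BB β * (1 / (2 * ((2 + 2 * M) * (BB β + 1)))) ≤ 1 / 2 := by
      rw [mul_one_div, div_le_iff₀ (by positivity)]
      nlinarith
    linarith
  have hcw : ContractingWith (1 / 2) (Psi hβ hζ hC hP hl.le hM) := by
    refine ⟨by norm_num, LipschitzWith.of_dist_le_mul fun h h' => ?_⟩
    refine (Psi_lip hβ hζ hC hP hl.le hM h h').trans ?_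
    refine mul_le_mul_of_nonneg_right (hbl.trans ?_) dist_nonneg
    norm_num
  obtain ⟨h, hfix⟩ : ∃ h, Psi hβ hζ hC hP hl.le hM h = h :=
    ⟨hcw.fixedPoint, hcw.fixedPoint_isFixedPt⟩
  have hg := gg_BC hl.le h
  set g : ℝ → ℝ → ℝ := gg l h with hgdef
  have heq : ∀ t x, g t x = 2 * cl 1 (WW β ζ g (ck t) x) * cl M (ZZ β ζ g (ck t) x) := by
    intro t x
    have h1 : h (t, x) = Psi0 β ζ M l h (t, x) := by
      conv_lhs => rw [← hfix]
      rfl
    have h2 : g t x = Real.exp (l * (1 - ck t)) * h (t, x) := rfl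
    rw [h2, h1]
    unfold Psi0
    simp only
    rw [← mul_assoc, ← Real.exp_add, add_neg_cancel, Real.exp_zero, one_mul]
  -- the a priori bound
  have hZc := ZZ_cont hβ hζ hC hP hg
  have hSD := (hC β _ ζ g hβ hζ hg).2.2
  have hPP := (hP β hβ).2.1.2
  have hck : Continuous (fun p : ℝ × ℝ => ck p.1) := ck_cont.comp continuous_fst
  have hzc : Continuous (fun p : ℝ × ℝ => Real.exp (-(l0 * (1 - ck p.1))) *
      ZZ β ζ g (ck p.1) p.2) :=
    (Real.continuous_exp.comp (continuous_const.mul (continuous_const.sub hck)).neg).mul hZc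
  have hexp1 : ∀ t, Real.exp (-(l0 * (1 - ck t))) ≤ 1 := by
    intro t
    rw [Real.exp_le_one_iff]
    have := (ck_mem t).2
    nlinarith
  have hzb : ∀ p : ℝ × ℝ, ‖Real.exp (-(l0 * (1 - ck p.1))) * ZZ β ζ g (ck p.1) p.2‖ ≤
      1 + 2 * β * (Real.exp l * ‖h‖) := by
    rintro ⟨t, x⟩
    simp only
    rw [norm_mul, Real.norm_eq_abs, Real.norm_eq_abs, abs_of_pos (Real.exp_pos _)]
    have h1 : |ZZ β ζ g (ck t) x| ≤ 1 + 2 * β * (Real.exp l * ‖h‖) := by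
      unfold ZZ
      exact (abs_add_le _ _).trans (add_le_add (hPP t x) (hSD t x))
    calc _ ≤ 1 * (1 + 2 * β * (Real.exp l * ‖h‖)) :=
          mul_le_mul (hexp1 t) h1 (abs_nonneg _) zero_le_one
      _ = _ := one_mul _
  set z : (ℝ × ℝ) →ᵇ ℝ := BoundedContinuousFunction.ofNormedAddCommGroup _ hzc _ hzb with hzdef
  have hz : ∀ t x, |ZZ β ζ g (ck t) x| ≤ ‖z‖ * Real.exp (l0 * (1 - ck t)) := by
    intro t x
    have h1 : ‖z (t, x)‖ ≤ ‖z‖ := z.norm_coe_le_norm _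
    have h2 : z (t, x) = Real.exp (-(l0 * (1 - ck t))) * ZZ β ζ g (ck t) x := rfl
    rw [h2, Real.norm_eq_abs, abs_mul, abs_of_pos (Real.exp_pos _)] at h1
    calc |ZZ β ζ g (ck t) x| = (Real.exp (-(l0 * (1 - ck t))) * |ZZ β ζ g (ck t) x|) *
          Real.exp (l0 * (1 - ck t)) := by
          rw [mul_right_comm, ← Real.exp_add, neg_add_cancel, Real.exp_zero, one_mul]
      _ ≤ _ := mul_le_mul_of_nonneg_right h1 (Real.exp_pos _).le
  have hgb : ∀ s ∈ Icc (0 : ℝ) 1, ∀ x, |g s x| ≤ (2 * ‖z‖) * Real.exp (l0 * (1 - s)) := by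
    intro s hs x
    rw [heq s x, abs_mul, abs_mul, abs_two]
    have h1 := cl_le zero_le_one (WW β ζ g (ck s) x)
    have h2 := (cl_abs_le hM (ZZ β ζ g (ck s) x)).trans (hz s x)
    rw [ck_eq hs] at h1 h2 ⊢
    calc 2 * |cl 1 (WW β ζ g s x)| * |cl M (ZZ β ζ g s x)| ≤
        2 * 1 * (‖z‖ * Real.exp (l0 * (1 - s))) :=
          mul_le_mul (mul_le_mul_of_nonneg_left h1 zero_le_two) h2 (abs_nonneg _) (by norm_num)
      _ = _ := by ring
  have hzn : ‖z‖ ≤ 1 + ‖z‖ / 2 := by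
    refine (BoundedContinuousFunction.norm_le (by positivity)).2 ?_
    rintro ⟨t, x⟩
    have h2 : z (t, x) = Real.exp (-(l0 * (1 - ck t))) * ZZ β ζ g (ck t) x := rfl
    rw [h2, Real.norm_eq_abs, abs_mul, abs_of_pos (Real.exp_pos _)]
    have h3 := SD_bd (β := β) hζ (by positivity : 0 ≤ 2 * ‖z‖) hgb (ck_mem t) x
    have h4 : |ZZ β ζ g (ck t) x| ≤ 1 + (‖z‖ / 2) * Real.exp (l0 * (1 - ck t)) := by
      unfold ZZ
      refine (abs_add_le _ _).trans (add_le_add (hPP t x) (h3.trans ?_))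
      have h5 := mul_le_mul_of_nonneg_right hb0
        (by positivity : 0 ≤ ‖z‖ * Real.exp (l0 * (1 - ck t)))
      nlinarith
    calc Real.exp (-(l0 * (1 - ck t))) * |ZZ β ζ g (ck t) x| ≤
        Real.exp (-(l0 * (1 - ck t))) * (1 + (‖z‖ / 2) * Real.exp (l0 * (1 - ck t))) :=
          mul_le_mul_of_nonneg_left h4 (Real.exp_pos _).le
      _ = Real.exp (-(l0 * (1 - ck t))) + (‖z‖ / 2) *
          (Real.exp (-(l0 * (1 - ck t))) * Real.exp (l0 * (1 - ck t))) := by ring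
      _ = Real.exp (-(l0 * (1 - ck t))) + ‖z‖ / 2 := by
          rw [← Real.exp_add, neg_add_cancel, Real.exp_zero, mul_one]
      _ ≤ _ := add_le_add (hexp1 t) le_rfl
  have hz2 : ‖z‖ ≤ 2 := by linarith
  refine ⟨Real.exp l * ‖h‖, g, hg, fun t x => ?_⟩
  have h6 : |ZZ β ζ g (ck t) x| ≤ M := by
    refine (hz t x).trans ?_
    rw [hMdef]
    exact mul_le_mul hz2 (wt_le hl0.le t) (Real.exp_pos _).le zero_le_two
  have h7 := heq t x
  rw [cl_eq h6] at h7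
  exact h7

end Pool.TH808.AT
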